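import Pool.Agent.Helper793.CM.Final
import Pool.Agent.Helper793.CM.Bdry2

set_option autoImplicit false

open MeasureTheory Set Filter Topology
open scoped ENNReal
open Pool.Agent.Helper793.CM

/-!
# The sharp Chang-Marshall inequality

`C₀* = 2πe`; extremal functions exist, and they are exactly the functions `f(z) = c z`, `|c| = 1`.

Definitions (in `Pool/Agent/Helper793/CM/Defs.lean`): `dirichletSq`, `ClassF`, `bpt`, `IsNTLimit`,
`IsBoundaryFn`, `expInt`.
-/

namespace Pool.Agent.Results.MP_3466b8_an.SharpChangMarshall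

/-- The sharp constant `C₀* = sup_{f ∈ 𝓕} ∫_0^{2π} e^{|f(e^{iθ})|²} dθ`. -/
noncomputable def C0star : ℝ≥0∞ :=
  sSup {v | ∃ f ∈ ClassF, ∃ b : ℝ → ℂ, IsBoundaryFn f b ∧ v = expInt b}

/-- `f` is an extremal function: `f ∈ 𝓕` and its boundary function gives the value `C₀*`. -/
def IsExtremal (f : ℂ → ℂ) : Prop :=
  f ∈ ClassF ∧ ∃ b : ℝ → ℂ, IsBoundaryFn f b ∧ expInt b = C0star

theorem C0star_eq : C0star = ENNReal.ofReal (2 * Real.pi * Real.exp 1) := by
  apply le_antisymm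
  · apply sSup_le
    rintro v ⟨f, hf, b, hb, rfl⟩
    exact expInt_le hf hb
  · apply le_sSup
    refine ⟨fun z => z, id_mem, bpt, id_bdry, ?_⟩
    have := expInt_linear (f := fun z => z) (c := 1) (fun z _ => by simp) id_bdry
    rw [this]
    simp

/-- the linear functions `c z` with `|c| = 1` are in the class -/
theorem linear_mem {f : ℂ → ℂ} {c : ℂ} (hc : ‖c‖ = 1)
    (h : ∀ z ∈ Metric.ball (0 : ℂ) 1, f z = c * z) : f ∈ ClassF := by
  have ho : IsOpen (Metric.ball (0 : ℂ) 1) := Metric.isOpen_ball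
  refine ⟨?_, ?_, ?_⟩
  · have h1 : DifferentiableOn ℂ (fun z : ℂ => c * z) (Metric.ball 0 1) := by fun_prop
    exact h1.congr h
  · rw [h 0 (by simp), mul_zero]
  · refine le_trans (le_of_eq ?_) id_mem.2.2
    unfold dirichletSq
    congr 1
    apply setLIntegral_congr_fun ho.measurableSet
    intro z hz
    have h1 : f =ᶠ[𝓝 z] fun z => c * z := by
      filter_upwards [ho.mem_nhds hz] with w hw
      exact h w hw
    have h2 : deriv f z = c := by
      rw [h1.deriv_eq]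
      simp
    simp only
    rw [h2, hc]
    simp

theorem result :
    -- every function of the class has a (nontangential) boundary function
    (∀ f ∈ ClassF, ∃ b : ℝ → ℂ, IsBoundaryFn f b) ∧
    -- Q1: the sharp constant
    C0star = ENNReal.ofReal (2 * Real.pi * Real.exp 1) ∧
    -- Q2: extremal functions exist, and they are exactly the functions `c z` with `|c| = 1`
    (∃ f : ℂ → ℂ, IsExtremal f) ∧
    (∀ f : ℂ → ℂ, IsExtremal f ↔
      ∃ c : ℂ, ‖c‖ = 1 ∧ ∀ z ∈ Metric.ball (0 : ℂ) 1, f z = c * z) ∧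
    (∀ f ∈ ClassF, ∀ b : ℝ → ℂ, IsBoundaryFn f b →
      (expInt b = C0star ↔ ∃ c : ℂ, ‖c‖ = 1 ∧ ∀ z ∈ Metric.ball (0 : ℂ) 1, f z = c * z)) := by
  have hiff : ∀ f ∈ ClassF, ∀ b : ℝ → ℂ, IsBoundaryFn f b →
      (expInt b = C0star ↔ ∃ c : ℂ, ‖c‖ = 1 ∧ ∀ z ∈ Metric.ball (0 : ℂ) 1, f z = c * z) := by
    intro f hf b hb
    rw [C0star_eq]
    exact eq_case hf hb
  have hex : ∀ f ∈ ClassF, ∃ b : ℝ → ℂ, IsBoundaryFn f b := fun f hf =>
    exists_bdry hf.1 (fin_of_classF hf)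
  have hlin : ∀ f : ℂ → ℂ, IsExtremal f ↔
      ∃ c : ℂ, ‖c‖ = 1 ∧ ∀ z ∈ Metric.ball (0 : ℂ) 1, f z = c * z := by
    intro f
    constructor
    · rintro ⟨hf, b, hb, he⟩
      exact (hiff f hf b hb).1 he
    · rintro ⟨c, hc, h⟩
      have hf := linear_mem hc h
      obtain ⟨b, hb⟩ := hex f hf
      exact ⟨hf, b, hb, (hiff f hf b hb).2 ⟨c, hc, h⟩⟩
  exact ⟨hex, C0star_eq, ⟨fun z => z, (hlin _).2 ⟨1, by simp, fun z _ => by simp⟩⟩, hlin, hiff⟩

end Pool.Agent.Results.MP_3466b8_an.SharpChangMarshall
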