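import Mathlib
import Pool.Agent.Helper714.CM.Main

set_option autoImplicit false

open MeasureTheory Filter Topology Set Metric
open scoped ENNReal Real

namespace Pool.Agent.Results.MP_3466b8_an.SharpConstant

/-- The point `r e^{iθ}`. -/
noncomputable def pt (r θ : ℝ) : ℂ := (r : ℂ) * Complex.exp (θ * Complex.I)

/-- `𝕁(f) = (∬_𝔻 |f'(z)|² dx dy / π)^{1/2}`, with values in `[0, ∞]`. -/
noncomputable def J (f : ℂ → ℂ) : ℝ≥0∞ :=
  (∫⁻ z in ball (0 : ℂ) 1, ENNReal.ofReal (‖deriv f z‖ ^ 2 / π)) ^ (1 / 2 : ℝ)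

/-- The class `𝓕`: `f` analytic on the open unit disc, `f 0 = 0`, `𝕁(f) ≤ 1`. -/
def F : Set (ℂ → ℂ) := {f | DifferentiableOn ℂ f (ball (0 : ℂ) 1) ∧ f 0 = 0 ∧ J f ≤ 1}

/-- The boundary value `f(e^{iθ})`: the radial limit. By part 1 of `result` it is the
nontangential limit of `f` at `e^{iθ}` for almost every `θ`. -/
noncomputable def bv (f : ℂ → ℂ) (θ : ℝ) : ℂ :=
  limUnder (𝓝[<] (1 : ℝ)) (fun r : ℝ => f (pt r θ))

/-- The Stolz region of aperture `M` at `e^{iθ}`. -/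
def Stolz (M θ : ℝ) : Set ℂ := {z | ‖z‖ < 1 ∧ ‖z - pt 1 θ‖ ≤ M * (1 - ‖z‖)}

/-- `∫_0^{2π} exp(|f(e^{iθ})|²) dθ`, with values in `[0, ∞]`. -/
noncomputable def expInt (f : ℂ → ℂ) : ℝ≥0∞ :=
  ∫⁻ θ in Ioc 0 (2 * π), ENNReal.ofReal (Real.exp (‖bv f θ‖ ^ 2))

/-- The sharp constant `C₀* = sup_{f ∈ 𝓕} ∫_0^{2π} exp(|f(e^{iθ})|²) dθ`. -/
noncomputable def C0star : ℝ≥0∞ := ⨆ f ∈ F, expInt f

theorem pt_eq (r θ : ℝ) : pt r θ = circleMap 0 r θ := by
  simp [pt, circleMap]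

theorem bv_eq (f : ℂ → ℂ) : bv f = CM.bv f := by
  ext θ
  simp only [bv, CM.bv, pt_eq]

theorem expInt_eq (f : ℂ → ℂ) : expInt f = CM.CMint f := by
  simp only [expInt, CM.CMint, bv_eq]

theorem mem_F_iff (f : ℂ → ℂ) : f ∈ F ↔ CM.Adm f := by
  have h1 : (∫⁻ z in ball (0 : ℂ) 1, ENNReal.ofReal (‖deriv f z‖ ^ 2 / π)) =
      (∫⁻ z in ball (0 : ℂ) 1, ENNReal.ofReal (‖deriv f z‖ ^ 2)) / ENNReal.ofReal π := by
    rw [ENNReal.div_eq_inv_mul, ← lintegral_const_mul' _ _ (by simp [Real.pi_pos])]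
    congr 1
    ext z
    rw [ENNReal.ofReal_div_of_pos Real.pi_pos, ENNReal.div_eq_inv_mul]
  have h2 : J f ≤ 1 ↔
      ∫⁻ z in ball (0 : ℂ) 1, ENNReal.ofReal (‖deriv f z‖ ^ 2) ≤ ENNReal.ofReal π := by
    unfold J
    have h3 : ∀ x : ℝ≥0∞, x ^ (1 / 2 : ℝ) ≤ 1 ↔ x ≤ 1 := by
      intro x
      constructor
      · intro h
        have h4 := ENNReal.rpow_le_rpow h (by norm_num : (0:ℝ) ≤ 2)
        rw [← ENNReal.rpow_mul, ENNReal.one_rpow] at h4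
        simpa using h4
      · intro h
        exact ENNReal.rpow_le_one h (by norm_num)
    rw [h1, h3, ENNReal.div_le_iff (by simp [Real.pi_pos]) (by simp), one_mul]
  simp only [F, mem_ofPred_eq, CM.Adm, h2]

/-- **Sharp Chang–Marshall inequality.**
1. For every `f ∈ 𝓕` and almost every `θ`, `f` has nontangential limit `bv f θ` at `e^{iθ}`.
2. `C₀* = 2πe`.
3. Extremal functions exist, and they are exactly the functions `f(z) = c z` with `|c| = 1`. -/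
theorem result :
    (∀ f ∈ F, ∀ᵐ θ ∂(volume.restrict (Ioc 0 (2 * π))), ∀ M : ℝ,
      Tendsto f (𝓝[Stolz M θ] (pt 1 θ)) (𝓝 (bv f θ))) ∧
    C0star = ENNReal.ofReal (2 * π * Real.exp 1) ∧
    (∀ f : ℂ → ℂ, (f ∈ F ∧ expInt f = C0star) ↔
      ∃ c : ℂ, ‖c‖ = 1 ∧ ∀ z ∈ ball (0 : ℂ) 1, f z = c * z) := by
  have hC : C0star = ENNReal.ofReal (2 * π * Real.exp 1) := by
    apply le_antisymm
    · apply iSup₂_le
      intro f hf
      rw [expInt_eq]
      exact CM.CMint_upper ((mem_F_iff f).mp hf)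
    · have h1 := (CM.extremal_iff (fun z => z)).mpr ⟨1, by simp, by simp⟩
      rw [← h1.2, ← expInt_eq]
      exact le_iSup₂ (f := fun f (_ : f ∈ F) => expInt f) (fun z => z) ((mem_F_iff _).mpr h1.1)
  refine ⟨?_, hC, ?_⟩
  · intro f hf
    filter_upwards [CM.nontangential_ae ((mem_F_iff f).mp hf)] with θ hθ M
    have := hθ M
    simp only [Stolz, pt_eq, bv_eq]
    exact this
  · intro f
    rw [mem_F_iff, hC, expInt_eq]
    exact CM.extremal_iff f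

end Pool.Agent.Results.MP_3466b8_an.SharpConstant
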